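import Pool.Agent.Lib.MP_89fcdb_gt.H74.SphC

/-!
# MP_89fcdb_gt, module PC (helper74): orthonormal pairs and their trivialisations

`PP V` is the space of orthonormal pairs `(u, v)` of a complex inner product space `V`.
-/

open scoped BigOperators
open Set Topology

namespace Pool.Agent.Lib.MP_89fcdb_gt.H74

noncomputable section

section Rm

variable {V : Type} [NormedAddCommGroup V] [InnerProductSpace ℂ V]

/-- A unitary map which takes `f` to `u`. -/
def Rm (f u x : V) : V := x - (inner ℂ (f - u) x / (1 - inner ℂ u f)) • (f - u)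

theorem inner_self_one {x : V} (h : ‖x‖ = 1) : inner ℂ x x = 1 := by
  rw [inner_self_eq_norm_sq_to_K, h]
  simp

theorem one_sub_inner_ne {f u : V} (hf : ‖f‖ = 1) (hu : ‖u‖ = 1) (h : u ≠ f) :
    1 - inner ℂ u f ≠ 0 := by
  intro h0
  exact h ((inner_eq_one_iff_of_norm_eq_one hu hf).mp (sub_eq_zero.mp h0).symm)

theorem Rm_self {f u : V} (hf : ‖f‖ = 1) (hu : ‖u‖ = 1) (h : u ≠ f) : Rm f u f = u := by
  have h1 := one_sub_inner_ne hf hu h
  have h2 : inner ℂ (f - u) f = 1 - inner ℂ u f := by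
    rw [inner_sub_left, inner_self_one hf]
  rw [Rm, h2, div_self h1, one_smul]
  abel

theorem Rm_inner {f u : V} (hf : ‖f‖ = 1) (hu : ‖u‖ = 1) (h : u ≠ f) (x y : V) :
    inner ℂ (Rm f u x) (Rm f u y) = inner ℂ x y := by
  have h1 := one_sub_inner_ne hf hu h
  have h2 := one_sub_inner_ne hu hf h.symm
  have e1 := inner_self_one hf
  have e2 := inner_self_one hu
  simp only [Rm, inner_sub_left, inner_sub_right, inner_smul_left, inner_smul_right, e1, e2,
    map_div₀, map_sub, map_one, inner_conj_symm]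
  field_simp
  ring

theorem Rm_Rm {f u : V} (hf : ‖f‖ = 1) (hu : ‖u‖ = 1) (h : u ≠ f) (x : V) :
    Rm u f (Rm f u x) = x := by
  have h1 := one_sub_inner_ne hf hu h
  have h2 := one_sub_inner_ne hu hf h.symm
  have e1 := inner_self_one hf
  have e2 := inner_self_one hu
  have key : inner ℂ (u - f) (Rm f u x) / (1 - inner ℂ f u) =
      inner ℂ (f - u) x / (1 - inner ℂ u f) := by
    simp only [Rm, inner_sub_left, inner_sub_right, inner_smul_right, e1, e2]
    field_simp
    ring
  rw [Rm, key, Rm, ← neg_sub f u, smul_neg]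
  abel

theorem continuous_Rm {T : Type*} [TopologicalSpace T] {f u x : T → V} (hf : Continuous f)
    (hu : Continuous u) (hx : Continuous x) (h1 : ∀ t, 1 - inner ℂ (u t) (f t) ≠ 0) :
    Continuous fun t => Rm (f t) (u t) (x t) := by
  unfold Rm
  refine hx.sub ((Continuous.div ?_ ?_ h1).smul (hf.sub hu))
  · exact (hf.sub hu).inner hx
  · exact continuous_const.sub (hu.inner hf)

end Rm

section Bundle

open Pool.Agent.Lib.MP_904b2a_gt

variable (V : Type) [NormedAddCommGroup V] [InnerProductSpace ℂ V]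

/-- Orthonormal pairs. -/
abbrev PP : Type := {p : V × V // ‖p.1‖ = 1 ∧ ‖p.2‖ = 1 ∧ inner ℂ p.1 p.2 = 0}

variable {V}

/-- The first vector. -/
def uu : C(PP V, Sp V) where
  toFun p := ⟨p.1.1, mem_sphere_zero_iff_norm.mpr p.2.1⟩
  continuous_toFun := by fun_prop

omit [InnerProductSpace ℂ V] in
theorem Sp.norm' (x : Sp V) : ‖(x : V)‖ = 1 := mem_sphere_zero_iff_norm.mp x.2

/-- The fibre over `b`. -/
abbrev Fib (b : Sp V) : Type := {v : V // ‖v‖ = 1 ∧ inner ℂ (b : V) v = 0}

/-- The inclusion of a fibre. -/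
def fibIncl (b : Sp V) : C(Fib b, PP V) where
  toFun v := ⟨(b, v), b.norm', v.2.1, v.2.2⟩
  continuous_toFun := by fun_prop

/-- The part of `PP V` over a subset of the sphere. -/
def Pset (T : Set (Sp V)) : Set (PP V) := uu ⁻¹' T

/-- The inclusion of a fibre. -/
def fibT (T : Set (Sp V)) (b : T) : C(Fib (b : Sp V), Pset T) where
  toFun v := ⟨fibIncl b v, b.2⟩
  continuous_toFun := by fun_prop

omit [InnerProductSpace ℂ V] in
theorem ne_coe {T : Set (Sp V)} {f : Sp V} (hf : f ∉ T) {b : Sp V} (hb : b ∈ T) :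
    (b : V) ≠ (f : V) := fun h => hf (Subtype.ext h ▸ hb)

theorem Rm_norm {f u : V} (hf : ‖f‖ = 1) (hu : ‖u‖ = 1) (h : u ≠ f) (x : V) :
    ‖Rm f u x‖ = ‖x‖ := by
  have h1 := Rm_inner hf hu h x x
  rw [inner_self_eq_norm_sq_to_K, inner_self_eq_norm_sq_to_K] at h1
  have h2 : ‖Rm f u x‖ ^ 2 = ‖x‖ ^ 2 := by exact_mod_cast h1
  exact (sq_eq_sq₀ (norm_nonneg _) (norm_nonneg _)).mp h2

/-- The trivialisation over a set which does not contain `f`. -/
def triv (T : Set (Sp V)) (f : Sp V) (hf : f ∉ T) : Fib f × T ≃ₜ Pset T where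
  toFun p := ⟨⟨((p.2 : Sp V), Rm f (p.2 : Sp V) (p.1 : V)), (p.2 : Sp V).norm', by
    rw [Rm_norm f.norm' (p.2 : Sp V).norm' (ne_coe hf p.2.2)]
    exact p.1.2.1, by
    have h := Rm_inner f.norm' (p.2 : Sp V).norm' (ne_coe hf p.2.2) (f : V) (p.1 : V)
    rw [Rm_self f.norm' (p.2 : Sp V).norm' (ne_coe hf p.2.2), p.1.2.2] at h
    exact h⟩, p.2.2⟩
  invFun q := (⟨Rm (uu q.1 : V) f q.1.1.2, by
    rw [Rm_norm (uu q.1).norm' f.norm' (ne_coe hf q.2).symm]
    exact q.1.2.2.1, by
    have h := Rm_inner (uu q.1).norm' f.norm' (ne_coe hf q.2).symm (uu q.1 : V) q.1.1.2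
    rw [Rm_self (uu q.1).norm' f.norm' (ne_coe hf q.2).symm] at h
    exact h.trans q.1.2.2.2⟩, ⟨uu q.1, q.2⟩)
  left_inv p := by
    refine Prod.ext (Subtype.ext ?_) rfl
    exact Rm_Rm f.norm' (p.2 : Sp V).norm' (ne_coe hf p.2.2) _
  right_inv q := by
    refine Subtype.ext (Subtype.ext (Prod.ext rfl ?_))
    exact Rm_Rm (uu q.1).norm' f.norm' (ne_coe hf q.2).symm _
  continuous_toFun := by
    refine Continuous.subtype_mk (Continuous.subtype_mk (Continuous.prodMk ?_ ?_) _) _
    · fun_prop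
    · exact continuous_Rm (by fun_prop) (by fun_prop) (by fun_prop)
        (fun p => one_sub_inner_ne f.norm' (p.2 : Sp V).norm' (ne_coe hf p.2.2))
  continuous_invFun := by
    refine Continuous.prodMk (Continuous.subtype_mk ?_ _) (by fun_prop)
    exact continuous_Rm (by fun_prop) (by fun_prop) (by fun_prop)
        (fun q => one_sub_inner_ne (uu q.1).norm' f.norm' (ne_coe hf q.2).symm)

/-- The rotation of fibres. -/
def rot (f b : Sp V) (h : (b : V) ≠ (f : V)) : C(Fib f, Fib b) where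
  toFun v := ⟨Rm f b v, by
    rw [Rm_norm f.norm' b.norm' h]
    exact v.2.1, by
    have h2 := Rm_inner f.norm' b.norm' h (f : V) v
    rw [Rm_self f.norm' b.norm' h] at h2
    exact h2.trans v.2.2⟩
  continuous_toFun := by
    refine Continuous.subtype_mk ?_ _
    exact continuous_Rm (by fun_prop) (by fun_prop) (by fun_prop)
        (fun q => one_sub_inner_ne f.norm' b.norm' h)

theorem rot_rot (f b : Sp V) (h : (b : V) ≠ (f : V)) :
    (rot b f h.symm).comp (rot f b h) = ContinuousMap.id _ := by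
  ext1 v
  exact Subtype.ext (Rm_Rm f.norm' b.norm' h _)

variable {A : Type*} [AddCommGroup A]

theorem rot_bijective (f b : Sp V) (h : (b : V) ≠ (f : V)) (k : ℕ) :
    Function.Bijective (H.pb (n := k) (A := A) (rot f b h)) :=
  H.pb_bijective (g := rot b f h.symm) (by rw [rot_rot]) (by rw [rot_rot b f h.symm])

theorem triv_slice (T : Set (Sp V)) (f : Sp V) (hf : f ∉ T) (b : T) :
    ((triv T f hf : C(Fib f × T, Pset T))).comp (slice (Fib f) b) =
      (fibT T b).comp (rot f b (ne_coe hf b.2)) := rfl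

/-- Over a contractible set not containing `f`, restriction to a fibre is an isomorphism. -/
theorem fibT_bijective (T : Set (Sp V)) [ContractibleSpace T] (f : Sp V) (hf : f ∉ T) (b : T)
    (k : ℕ) : Function.Bijective (H.pb (n := k) (A := A) (fibT T b)) := by
  have h1 : Function.Bijective ((H.pb (n := k) (A := A) (slice (Fib f) b)) ∘
      (H.pb (triv T f hf : C(Fib f × T, Pset T)))) :=
    (slice_bijective b k).comp (H.pb_bijective_of_homeomorph (triv T f hf))
  have h2 : (H.pb (n := k) (A := A) (slice (Fib f) b)) ∘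
      (H.pb (triv T f hf : C(Fib f × T, Pset T))) =
      (H.pb (rot f b (ne_coe hf b.2))) ∘ (H.pb (fibT T b)) := by
    funext c
    simp only [Function.comp]
    rw [H.pb_comp, H.pb_comp, triv_slice]
  rw [h2] at h1
  exact (Function.Bijective.of_comp_iff' (rot_bijective f b (ne_coe hf b.2) k) _).mp h1

/-- The kernel of the restriction to a fibre. -/
theorem fibT_ker (T : Set (Sp V)) (f : Sp V) (hf : f ∉ T) (b : T) (k : ℕ) :
    Nonempty ((H.pb (n := k) (A := A) (fibT T b)).ker ≃+ Red A k (Fib f) b) := by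
  have key : ∀ c : H k (Pset T) A, H.pb (slice (Fib f) b)
      (H.pb (triv T f hf : C(Fib f × T, Pset T)) c) =
      H.pb (rot f b (ne_coe hf b.2)) (H.pb (fibT T b) c) := by
    intro c
    rw [H.pb_comp, H.pb_comp, triv_slice]
  let φ : (H.pb (n := k) (A := A) (fibT T b)).ker →+ Red A k (Fib f) b :=
    ((H.pb (triv T f hf : C(Fib f × T, Pset T))).comp
      (H.pb (n := k) (A := A) (fibT T b)).ker.subtype).codRestrict _ (fun c => by
        rw [mem_Red]
        refine (key c).trans ?_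
        rw [show H.pb (fibT T b) (c : H k (Pset T) A) = 0 from c.2, map_zero])
  have hb := H.pb_bijective_of_homeomorph (n := k) (A := A) (triv T f hf)
  refine ⟨AddEquiv.ofBijective φ ⟨fun x y h => ?_, fun y => ?_⟩⟩
  · exact Subtype.ext (hb.1 (congrArg Subtype.val h))
  · obtain ⟨x, hx⟩ := hb.2 y.1
    refine ⟨⟨x, ?_⟩, Subtype.ext hx⟩
    apply (rot_bijective (A := A) f b (ne_coe hf b.2) k).1
    rw [← key, hx, map_zero]
    exact y.2

end Bundle

end

end Pool.Agent.Lib.MP_89fcdb_gt.H74
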