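import Pool.Agent.Lib.MP_89fcdb_gt.H74.Bun

/-!
# MP_89fcdb_gt, module PC (helper74): the cohomology of the space of orthonormal pairs in `ℂ³`
-/

open scoped BigOperators
open Set Topology

namespace Pool.Agent.Lib.MP_89fcdb_gt.H74

open Pool.Agent.Lib.MP_904b2a_gt
open H83 (MVSq)

noncomputable section

section General

variable {V : Type} [NormedAddCommGroup V] [InnerProductSpace ℂ V] [InnerProductSpace ℝ V]
variable {A : Type*} [AddCommGroup A]

omit [InnerProductSpace ℂ V] in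
theorem neg_notMem_Ap (e : Sp V) : -e ∉ (suspSp e).Ap := by
  intro h
  have h1 : -1 < inner ℝ (e : V) ((-e : Sp V) : V) := h
  have h2 : ((-e : Sp V) : V) = -(e : V) := rfl
  rw [h2, inner_neg_right, e.inner_self] at h1
  exact lt_irrefl _ h1

omit [InnerProductSpace ℂ V] in
theorem notMem_Am (e : Sp V) : e ∉ (suspSp e).Am := by
  intro h
  have h1 : inner ℝ (e : V) (e : V) < 1 := h
  rw [e.inner_self] at h1
  exact lt_irrefl _ h1

omit [InnerProductSpace ℝ V] in
theorem isOpen_Pset {T : Set (Sp V)} (hT : IsOpen T) : IsOpen (Pset T) :=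
  hT.preimage uu.continuous

theorem cover_Pset (e : Sp V) : Pset (suspSp e).Ap ∪ Pset (suspSp e).Am = univ := by
  have h := (suspSp e).Ap_union_Am
  rw [Pset, Pset, ← preimage_union, h, preimage_univ]

/-- The Mayer–Vietoris square of `PP V`. -/
theorem sqP (e : Sp V) : MVSq (iL (Pset (suspSp e).Ap) (Pset (suspSp e).Am))
    (iR (Pset (suspSp e).Ap) (Pset (suspSp e).Am)) (incl (Pset (suspSp e).Ap))
    (incl (Pset (suspSp e).Am)) :=
  sq_of_cover (isOpen_Pset (suspSp e).isOpen_Ap) (isOpen_Pset (suspSp e).isOpen_Am)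
    (cover_Pset e)

/-- A point of the intersection as a point of `Ap`. -/
abbrev toAp {e : Sp V} (b : ↥((suspSp e).Ap ∩ (suspSp e).Am)) : (suspSp e).Ap := ⟨b.1, b.2.1⟩

/-- A point of the intersection as a point of `Am`. -/
abbrev toAm {e : Sp V} (b : ↥((suspSp e).Ap ∩ (suspSp e).Am)) : (suspSp e).Am := ⟨b.1, b.2.2⟩

/-- The inclusion of the fibre in the intersection. -/
abbrev fibI {e : Sp V} (b : ↥((suspSp e).Ap ∩ (suspSp e).Am)) :
    C(Fib (b : Sp V), ↥(Pset (suspSp e).Ap ∩ Pset (suspSp e).Am)) :=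
  fibT ((suspSp e).Ap ∩ (suspSp e).Am) b

theorem fib_surjective (e : Sp V) (b : ↥((suspSp e).Ap ∩ (suspSp e).Am)) (k : ℕ)
    (h : Function.Injective (H.pb (n := k) (A := A) (fibI b))) :
    Function.Surjective (H.pb (n := k) (A := A) (fibIncl (b : Sp V))) := by
  have : Nonempty (Sp V) := ⟨e⟩
  have c1 : ContractibleSpace (suspSp e).Ap := (suspSp e).contractible_Ap
  have c2 : ContractibleSpace (suspSp e).Am := (suspSp e).contractible_Am
  intro y
  obtain ⟨u, hu⟩ := (fibT_bijective (A := A) (suspSp e).Ap (-e) (neg_notMem_Ap e) (toAp b) k).2 y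
  obtain ⟨w, hw⟩ := (fibT_bijective (A := A) (suspSp e).Am e (notMem_Am e) (toAm b) k).2 y
  obtain ⟨c, h1, h2⟩ := H83.MV.exact_UW (sqP e) (u := u) (w := w) (h (by
    rw [H.pb_comp, H.pb_comp]
    exact hu.trans hw.symm))
  refine ⟨c, ?_⟩
  have h3 : fibIncl (b : Sp V) = (incl (Pset (suspSp e).Ap)).comp
      (fibT (suspSp e).Ap (toAp b)) := rfl
  rw [h3, ← H.pb_comp, h1, hu]

theorem exists_mvP (e : Sp V) (b : ↥((suspSp e).Ap ∩ (suspSp e).Am)) (k : ℕ)
    (c : H (k + 1) (PP V) A) (hc : H.pb (fibIncl (b : Sp V)) c = 0) :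
    ∃ a : H k ↥(Pset (suspSp e).Ap ∩ Pset (suspSp e).Am) A,
      H83.MV (iL (Pset (suspSp e).Ap) (Pset (suspSp e).Am))
        (iR (Pset (suspSp e).Ap) (Pset (suspSp e).Am)) (incl (Pset (suspSp e).Ap))
        (incl (Pset (suspSp e).Am)) k c a ∧ H.pb (fibI b) a = 0 := by
  have : Nonempty (Sp V) := ⟨e⟩
  have c1 : ContractibleSpace (suspSp e).Ap := (suspSp e).contractible_Ap
  have c2 : ContractibleSpace (suspSp e).Am := (suspSp e).contractible_Am
  have r1 : H.pb (incl (Pset (suspSp e).Ap)) c = 0 := by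
    apply (fibT_bijective (A := A) (suspSp e).Ap (-e) (neg_notMem_Ap e) (toAp b) (k + 1)).1
    rw [H.pb_comp, map_zero]
    exact hc
  have r2 : H.pb (incl (Pset (suspSp e).Am)) c = 0 := by
    apply (fibT_bijective (A := A) (suspSp e).Am e (notMem_Am e) (toAm b) (k + 1)).1
    rw [H.pb_comp, map_zero]
    exact hc
  obtain ⟨a, ha⟩ := H83.MV.of_restrict (sqP e).comm r1 r2
  obtain ⟨u, hu⟩ := (fibT_bijective (A := A) (suspSp e).Ap (-e) (neg_notMem_Ap e)
    (toAp b) k).2 (H.pb (fibI b) a)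
  have h2 := ha.sub (H83.MV.of_sub (jU := iL (Pset (suspSp e).Ap) (Pset (suspSp e).Am))
    (jW := iR (Pset (suspSp e).Ap) (Pset (suspSp e).Am)) (iU := incl (Pset (suspSp e).Ap))
    (iW := incl (Pset (suspSp e).Am)) u 0)
  rw [sub_zero, map_zero, sub_zero] at h2
  refine ⟨_, h2, ?_⟩
  rw [map_sub, H.pb_comp, sub_eq_zero]
  exact hu.symm

theorem fib_injective (e : Sp V) (b : ↥((suspSp e).Ap ∩ (suspSp e).Am)) (k : ℕ)
    (h : Function.Injective (H.pb (n := k) (A := A) (fibI b))) :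
    Function.Injective (H.pb (n := k + 1) (A := A) (fibIncl (b : Sp V))) := by
  rw [injective_iff_map_eq_zero]
  intro c hc
  obtain ⟨a, ha, h0⟩ := exists_mvP e b k c hc
  have h1 : a = 0 := h (by rw [h0, map_zero])
  rw [h1] at ha
  exact H83.MV.eq_zero (sqP e) ha

/-- The kernel of the restriction from the intersection to a fibre. -/
theorem fibI_ker (e : Sp V) (b : ↥((suspSp e).Ap ∩ (suspSp e).Am)) (k : ℕ) :
    Nonempty ((H.pb (n := k) (A := A) (fibI b)).ker ≃+ Red A k (Fib e) b) :=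
  fibT_ker ((suspSp e).Ap ∩ (suspSp e).Am) e (fun h => notMem_Am e h.2) b k

end General

/-! ### The case of `ℂ³` -/

/-- `ℂ³`. -/
abbrev V3 : Type := EuclideanSpace ℂ (Fin 3)

/-- The orthogonal complement of `b`. -/
abbrev KK (b : Sp V3) : Type := ↥(((Submodule.span ℂ {(b : V3)})ᗮ).restrictScalars ℝ)

theorem finrank_V3 : Module.finrank ℝ V3 = 6 := by
  rw [finrank_real_of_complex]
  simp

theorem finrank_KK (b : Sp V3) : Module.finrank ℝ (KK b) = 4 := by
  have h1 : Module.finrank ℝ (KK b) =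
      Module.finrank ℝ ↥((Submodule.span ℂ {(b : V3)})ᗮ) := rfl
  rw [h1, finrank_real_of_complex]
  have hb : (b : V3) ≠ 0 := by
    intro h0
    have := b.norm'
    rw [h0, norm_zero] at this
    exact zero_ne_one this
  have : Fact (Module.finrank ℂ V3 = 2 + 1) := ⟨by simp⟩
  rw [Submodule.finrank_orthogonal_span_singleton (n := 2) hb]

/-- The fibres are spheres. -/
def fibHomeo (b : Sp V3) : Fib b ≃ₜ Sp (KK b) where
  toFun v := ⟨⟨(v : V3), Submodule.mem_orthogonal_singleton_iff_inner_right.mpr v.2.2⟩, by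
    rw [mem_sphere_zero_iff_norm]
    exact v.2.1⟩
  invFun x := ⟨((x : KK b) : V3), by
    have := x.2
    rw [mem_sphere_zero_iff_norm] at this
    exact this, Submodule.mem_orthogonal_singleton_iff_inner_right.mp (x : KK b).2⟩
  left_inv v := rfl
  right_inv x := rfl
  continuous_toFun := by fun_prop
  continuous_invFun := by fun_prop

variable {A : Type*} [AddCommGroup A]

theorem H_fib_eq_zero (b : Sp V3) {k : ℕ} (hk : k ≠ 0) (hk3 : k ≠ 3) (c : H k (Fib b) A) :
    c = 0 := by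
  obtain ⟨d, rfl⟩ := (H.pb_bijective_of_homeomorph (n := k) (A := A) (fibHomeo b)).2 c
  rw [H_sphere_eq_zero (n := 3) (finrank_KK b) hk hk3 d, map_zero]

theorem pathConnected_fib (b : Sp V3) : PathConnectedSpace (Fib b) := by
  have h : PathConnectedSpace (Sp (KK b)) := pathConnected_sphere (E := KK b) (n := 2)
    (finrank_KK b)
  exact (fibHomeo b).symm.surjective.pathConnectedSpace (fibHomeo b).symm.continuous

/-- A pole orthogonal to `b`. -/
theorem exists_pole (b : Sp V3) : ∃ e : Sp V3, b ∈ (suspSp e).Ap ∩ (suspSp e).Am := by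
  obtain ⟨e, he⟩ := exists_orth b (by rw [finrank_V3]; norm_num)
  refine ⟨e, (suspSp e).Eqt_sub ?_⟩
  exact he

theorem red_A0 {e : Sp V3} (b : ↥((suspSp e).Ap ∩ (suspSp e).Am)) (F : Type)
    [TopologicalSpace F] (k : ℕ) :
    (k < 4 → Subsingleton (Red A k F b)) ∧
      (∀ j, k = j + 4 → Nonempty (Red A k F b ≃+ H j F A)) := by
  have : Nonempty (Sp V3) := ⟨e⟩
  have c1 : ContractibleSpace (suspSp e).Ap := (suspSp e).contractible_Ap
  have c2 : ContractibleSpace (suspSp e).Am := (suspSp e).contractible_Am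
  obtain ⟨s⟩ := red_step (A := A) (suspSp e).isOpen_Ap (suspSp e).isOpen_Am
    (suspSp e).Ap_union_Am b F k
  have h := red_sphere (A := A) 5 V3 finrank_V3 (b : Sp V3) F (k + 1)
  constructor
  · intro hk
    have := h.1 (by omega)
    exact s.symm.toEquiv.subsingleton
  · rintro j rfl
    obtain ⟨t⟩ := h.2 j rfl
    exact ⟨s.symm.trans t⟩

theorem fibI_injective {e : Sp V3} (b : ↥((suspSp e).Ap ∩ (suspSp e).Am)) {k : ℕ}
    (hk : k ≤ 6) (hk4 : k ≠ 4) : Function.Injective (H.pb (n := k) (A := A) (fibI b)) := by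
  obtain ⟨s⟩ := fibI_ker (A := A) e b k
  rw [injective_iff_map_eq_zero]
  intro c hc
  suffices Subsingleton (H.pb (n := k) (A := A) (fibI b)).ker by
    have h := Subsingleton.elim (⟨c, hc⟩ : (H.pb (n := k) (A := A) (fibI b)).ker) 0
    exact congrArg Subtype.val h
  suffices Subsingleton (Red A k (Fib e) b) from s.toEquiv.subsingleton
  rcases Nat.lt_or_ge k 4 with h | h
  · exact (red_A0 b (Fib e) k).1 h
  · obtain ⟨j, rfl⟩ := Nat.exists_eq_add_of_le' h
    obtain ⟨t⟩ := (red_A0 (A := A) b (Fib e) (j + 4)).2 j rfl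
    have : Subsingleton (H j (Fib e) A) :=
      ⟨fun x y => (H_fib_eq_zero e (by omega) (by omega) x).trans
        (H_fib_eq_zero e (by omega) (by omega) y).symm⟩
    exact t.toEquiv.subsingleton

/-- `H^k(P) = 0` for `k = 1, 2, 4, 6, 7`. -/
theorem H_P_eq_zero {k : ℕ} (hk : k = 1 ∨ k = 2 ∨ k = 4 ∨ k = 6 ∨ k = 7) (c : H k (PP V3) A) :
    c = 0 := by
  obtain ⟨b⟩ := sphere_nonempty (n := 5) finrank_V3
  obtain ⟨e, he⟩ := exists_pole b
  obtain ⟨m, rfl⟩ := Nat.exists_eq_succ_of_ne_zero (show k ≠ 0 by omega)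
  have h := fib_injective (A := A) e ⟨b, he⟩ m (fibI_injective ⟨b, he⟩ (by omega) (by omega))
  exact h ((H_fib_eq_zero b (by omega) (by omega) _).trans (map_zero _).symm)

/-- Restriction to a fibre is bijective in degree three. -/
theorem fib_bijective (b : Sp V3) :
    Function.Bijective (H.pb (n := 3) (A := A) (fibIncl b)) := by
  obtain ⟨e, he⟩ := exists_pole b
  exact ⟨fib_injective e ⟨b, he⟩ 2 (fibI_injective ⟨b, he⟩ (by omega) (by omega)),
    fib_surjective e ⟨b, he⟩ 3 (fibI_injective ⟨b, he⟩ (by omega) (by omega))⟩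

/-- Degree five. -/
theorem H5_P {s : H 5 (Sp V3) (ZMod 2)} (hs : s ≠ 0) : H.pb uu s ≠ 0 ∧
    ∀ y : H 5 (PP V3) (ZMod 2), y = 0 ∨ y = H.pb uu s := by
  obtain ⟨b⟩ := sphere_nonempty (n := 5) finrank_V3
  obtain ⟨e, he⟩ := exists_pole b
  have hne : Nonempty (Sp V3) := ⟨e⟩
  have c1 : ContractibleSpace (suspSp e).Ap := (suspSp e).contractible_Ap
  have c2 : ContractibleSpace (suspSp e).Am := (suspSp e).contractible_Am
  obtain ⟨s4, hs4⟩ := (suspSp e).exists_mv 4 s
  rw [mv_iff] at hs4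
  let uI : C(↥(Pset (suspSp e).Ap ∩ Pset (suspSp e).Am), ↥((suspSp e).Ap ∩ (suspSp e).Am)) :=
    ⟨fun p => ⟨uu p.1, p.2⟩, by fun_prop⟩
  let uU : C(↥(Pset (suspSp e).Ap), ↥((suspSp e).Ap)) := ⟨fun p => ⟨uu p.1, p.2⟩, by fun_prop⟩
  let uW : C(↥(Pset (suspSp e).Am), ↥((suspSp e).Am)) := ⟨fun p => ⟨uu p.1, p.2⟩, by fun_prop⟩
  have hnat : H83.MV (iL (Pset (suspSp e).Ap) (Pset (suspSp e).Am))
      (iR (Pset (suspSp e).Ap) (Pset (suspSp e).Am)) (incl (Pset (suspSp e).Ap))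
      (incl (Pset (suspSp e).Am)) 4 (H.pb uu s) (H.pb uI s4) :=
    H83.MV.natural uI uU uW uu rfl rfl rfl rfl hs4
  have hfe := pathConnected_fib e
  obtain ⟨v0⟩ : Nonempty (Fib e) := inferInstance
  let sec : C(↥((suspSp e).Ap ∩ (suspSp e).Am), ↥(Pset (suspSp e).Ap ∩ Pset (suspSp e).Am)) :=
    (triv ((suspSp e).Ap ∩ (suspSp e).Am) e (fun h => notMem_Am e h.2) :
      C(Fib e × ↥((suspSp e).Ap ∩ (suspSp e).Am), Pset ((suspSp e).Ap ∩ (suspSp e).Am))).comp
      ⟨fun x => (v0, x), by fun_prop⟩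
  have hsec : uI.comp sec = ContinuousMap.id _ := rfl
  have hinj : H.pb uI s4 ≠ 0 := by
    intro h0
    have h1 : s4 = 0 := by
      rw [← H.pb_id s4, ← hsec, ← H.pb_comp, h0, map_zero]
    rw [h1] at hs4
    exact hs (H83.MV.eq_zero (suspSp e).sq hs4)
  constructor
  · intro h0
    rw [h0] at hnat
    obtain ⟨u, w, huw⟩ := H83.MV.exact_I (sqP e).comm hnat
    have hu : u = 0 := by
      apply (fibT_bijective (A := ZMod 2) (suspSp e).Ap (-e) (neg_notMem_Ap e)
        (toAp ⟨b, he⟩) 4).1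
      rw [map_zero]
      exact H_fib_eq_zero b (by omega) (by omega) _
    have hw : w = 0 := by
      apply (fibT_bijective (A := ZMod 2) (suspSp e).Am e (notMem_Am e)
        (toAm ⟨b, he⟩) 4).1
      rw [map_zero]
      exact H_fib_eq_zero b (by omega) (by omega) _
    rw [hu, hw, map_zero, map_zero, sub_zero] at huw
    exact hinj huw
  · intro y
    obtain ⟨a, ha, h0⟩ := exists_mvP e ⟨b, he⟩ 4 y (H_fib_eq_zero b (by omega) (by omega) _)
    obtain ⟨s1⟩ := fibI_ker (A := ZMod 2) e ⟨b, he⟩ 4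
    obtain ⟨s2⟩ := (red_A0 (A := ZMod 2) ⟨b, he⟩ (Fib e) 4).2 0 rfl
    obtain ⟨w, hw, hw2⟩ := Two.of_equiv (s1.trans s2) two_H0
    have hk0 : H.pb (fibI ⟨b, he⟩) (H.pb uI s4) = 0 := H_fib_eq_zero b (by omega) (by omega) _
    have hA : (⟨H.pb uI s4, hk0⟩ :
        (H.pb (n := 4) (A := ZMod 2) (fibI (e := e) ⟨b, he⟩)).ker) = w := by
      rcases hw2 ⟨H.pb uI s4, hk0⟩ with h | h
      · exact absurd (congrArg Subtype.val h) hinj
      · exact h
    rcases hw2 ⟨a, h0⟩ with h | h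
    · left
      have h1 : a = 0 := congrArg Subtype.val h
      rw [h1] at ha
      exact H83.MV.eq_zero (sqP e) ha
    · right
      have h1 : a = H.pb uI s4 := congrArg Subtype.val (h.trans hA.symm)
      rw [h1] at ha
      exact H83.MV.unique (sqP e) ha hnat

end

end Pool.Agent.Lib.MP_89fcdb_gt.H74
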