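import Pool.Agent.Lib.MP_89fcdb_gt.H74.SphE

/-!
# MP_89fcdb_gt, module PC (helper74): the cohomology of spheres
-/

open scoped BigOperators
open Set Topology

namespace Pool.Agent.Lib.MP_89fcdb_gt.H74

open Pool.Agent.Lib.MP_904b2a_gt

noncomputable section

variable {A : Type*} [AddCommGroup A]

/-- The cohomology of a point in degree zero. -/
theorem H0_unit_equiv : Nonempty (H 0 Unit A ≃+ A) := by
  let f : A →+ H 0 Unit A := AddMonoidHom.mk' (fun a => H.const Unit a) (fun a b => rfl)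
  refine ⟨(AddEquiv.ofBijective f ⟨?_, ?_⟩).symm⟩
  · rw [injective_iff_map_eq_zero]
    intro a ha
    have h : H.const Unit a = 0 := ha
    rw [H.const, H.mk_eq_zero] at h
    exact congrFun (show (fun _ => a : Coch 0 Unit A) = 0 from h) (cs 0 ())
  · intro c
    obtain ⟨φ, rfl⟩ := H.mk_surjective 0 c
    refine ⟨φ.1 (cs 0 ()), ?_⟩
    change H.const Unit _ = _
    rw [H.const]
    congr 1

/-- The homeomorphism `X ≃ Unit × X` on cohomology. -/
theorem unit_prod_equiv {X : Type} [TopologicalSpace X] (k : ℕ) :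
    Function.Bijective (H.pb (n := k) (A := A)
      (⟨Prod.snd, continuous_snd⟩ : C(Unit × X, X))) := by
  refine H.pb_bijective (g := ⟨fun x => ((), x), by fun_prop⟩) ?_ ?_
  · rfl
  · rfl

theorem red_unit {X : Type} [TopologicalSpace X] (b : X) (k : ℕ) :
    Nonempty (H (k + 1) X A ≃+ Red A (k + 1) Unit b) := by
  let f := (H.pb (n := k + 1) (A := A) (⟨Prod.snd, continuous_snd⟩ : C(Unit × X, X)))
  let φ : H (k + 1) X A →+ Red A (k + 1) Unit b := f.codRestrict _ (fun c => by
    rw [mem_Red]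
    exact H.eq_zero_of_subsingleton k _)
  have hf := unit_prod_equiv (A := A) (X := X) (k + 1)
  refine ⟨AddEquiv.ofBijective φ ⟨fun x y h => hf.1 (congrArg Subtype.val h), fun y => ?_⟩⟩
  obtain ⟨x, hx⟩ := hf.2 y.1
  exact ⟨x, Subtype.ext hx⟩

variable {E : Type} [NormedAddCommGroup E] [InnerProductSpace ℝ E]

theorem sphere_nonempty {n : ℕ} (hE : Module.finrank ℝ E = n + 1) : Nonempty (Sp E) := by
  have : Nontrivial E := Module.nontrivial_of_finrank_pos (R := ℝ) (by omega)
  obtain ⟨v, hv⟩ := exists_ne (0 : E)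
  have hv' : ‖v‖ ≠ 0 := norm_ne_zero_iff.mpr hv
  exact ⟨⟨‖v‖⁻¹ • v, by
    rw [mem_sphere_zero_iff_norm, norm_smul, norm_inv, norm_norm, inv_mul_cancel₀ hv']⟩⟩

/-- Spheres have no cohomology in the other positive degrees. -/
theorem H_sphere_eq_zero {n : ℕ} (hE : Module.finrank ℝ E = n + 1) {k : ℕ} (hk : k ≠ 0)
    (hkn : k ≠ n) (c : H k (Sp E) A) : c = 0 := by
  obtain ⟨b⟩ := sphere_nonempty hE
  obtain ⟨m, rfl⟩ := Nat.exists_eq_succ_of_ne_zero hk
  obtain ⟨e⟩ := red_unit (A := A) b m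
  have h := red_sphere (A := A) n E hE b Unit (m + 1)
  apply e.injective
  rcases lt_or_gt_of_ne hkn with h1 | h1
  · have := h.1 h1
    exact Subsingleton.elim _ _
  · obtain ⟨j, hj⟩ : ∃ j, m + 1 = (j + 1) + n := ⟨m - n, by omega⟩
    obtain ⟨e2⟩ := h.2 (j + 1) hj
    apply e2.injective
    rw [H.eq_zero_of_subsingleton j (e2 (e 0)), H.eq_zero_of_subsingleton j (e2 (e c))]

/-- The top cohomology of a sphere. -/
theorem H_sphere_top {n : ℕ} (hE : Module.finrank ℝ E = n + 2) :
    Nonempty (H (n + 1) (Sp E) A ≃+ A) := by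
  obtain ⟨b⟩ := sphere_nonempty hE
  obtain ⟨e⟩ := red_unit (A := A) b n
  obtain ⟨e2⟩ := (red_sphere (A := A) (n + 1) E hE b Unit (n + 1)).2 0 (by omega)
  obtain ⟨e3⟩ := H0_unit_equiv (A := A)
  exact ⟨(e.trans e2).trans e3⟩

/-- A class in degree zero of a path connected space, mod 2. -/
theorem two_H0 {X : Type} [TopologicalSpace X] [PathConnectedSpace X] : Two (H 0 X (ZMod 2)) := by
  refine ⟨H.const X 1, fun h => ?_, fun y => ?_⟩
  · rw [H.const, H.mk_eq_zero] at h
    have h2 := congrFun (show (fun _ => 1 : Coch 0 X (ZMod 2)) = 0 from h)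
      (cs 0 (Classical.arbitrary X))
    exact one_ne_zero h2
  · obtain ⟨φ, rfl⟩ := H.mk_surjective 0 y
    have x₀ : X := Classical.arbitrary X
    have key : ∀ x : X, φ.1 (cs 0 x) = φ.1 (cs 0 x₀) := by
      intro x
      have h : (ContinuousMap.const Unit x).Homotopic (ContinuousMap.const Unit x₀) :=
        ContinuousMap.homotopic_const_iff.mpr (PathConnectedSpace.joined x x₀)
      have h2 := H.pb_eq_of_homotopic h (H.mk 0 φ)
      rw [H.pb_mk, H.pb_mk, H.mk_eq_mk] at h2
      have h3 : pbC 0 (ContinuousMap.const Unit x) φ.1 -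
        pbC 0 (ContinuousMap.const Unit x₀) φ.1 = 0 := h2
      exact congrFun (sub_eq_zero.1 h3) (cs 0 ())
    have e : H.mk 0 φ = H.const X (φ.1 (cs 0 x₀)) := by
      rw [H.const]
      congr 1
      apply Subtype.ext
      funext σ
      rw [zero_simplex_eq σ]
      exact key _
    rw [e]
    rcases (by decide : ∀ a : ZMod 2, a = 0 ∨ a = 1) (φ.1 (cs 0 x₀)) with h | h
    · left
      rw [h]
      rfl
    · right
      rw [h]

/-- The top cohomology of a sphere mod 2. -/
theorem two_sphere {n : ℕ} (hE : Module.finrank ℝ E = n + 2) :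
    Two (H (n + 1) (Sp E) (ZMod 2)) := by
  obtain ⟨e⟩ := H_sphere_top (A := ZMod 2) hE
  exact Two.of_equiv e two_zmod

theorem pathConnected_sphere {n : ℕ} (hE : Module.finrank ℝ E = n + 2) :
    PathConnectedSpace (Sp E) := by
  have hfd : FiniteDimensional ℝ E := Module.finite_of_finrank_pos (by omega)
  rw [← isPathConnected_iff_pathConnectedSpace]
  refine isPathConnected_sphere ?_ 0 zero_le_one
  rw [← Module.finrank_eq_rank]
  rw [hE]
  norm_cast
  omega

end

end Pool.Agent.Lib.MP_89fcdb_gt.H74
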