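import Pool.Agent.Lib.MP_89fcdb_gt.H74.SphF

/-!
# MP_89fcdb_gt, module PC (helper74): the cohomology of `F × S(E)`, induction on the dimension
-/

open scoped BigOperators
open Set Topology

namespace Pool.Agent.Lib.MP_89fcdb_gt.H74

open Pool.Agent.Lib.MP_904b2a_gt

noncomputable section

variable {A : Type*} [AddCommGroup A]

theorem idm_bijective (F : Type) [TopologicalSpace F] {X Y : Type} [TopologicalSpace X]
    [TopologicalSpace Y] {f : C(X, Y)} {g : C(Y, X)}
    (h₁ : (g.comp f).Homotopic (ContinuousMap.id X))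
    (h₂ : (f.comp g).Homotopic (ContinuousMap.id Y)) (k : ℕ) :
    Function.Bijective (H.pb (n := k) (A := A) (idm F f)) := by
  obtain ⟨G₁⟩ := h₁
  obtain ⟨G₂⟩ := h₂
  exact H.pb_bijective (g := idm F g)
    ⟨((ContinuousMap.Homotopy.refl (ContinuousMap.id F)).prodMap G₁).cast rfl rfl⟩
    ⟨((ContinuousMap.Homotopy.refl (ContinuousMap.id F)).prodMap G₂).cast rfl rfl⟩

/-- The unit sphere. -/
abbrev Sp (E : Type) [NormedAddCommGroup E] : Type := Metric.sphere (0 : E) 1

section

variable {E : Type} [NormedAddCommGroup E] [InnerProductSpace ℝ E]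

omit [InnerProductSpace ℝ E] in
theorem Sp.norm (x : Sp E) : ‖(x : E)‖ = 1 := by
  have := x.2
  rwa [mem_sphere_zero_iff_norm] at this

theorem Sp.inner_self (x : Sp E) : inner ℝ (x : E) (x : E) = 1 := by
  rw [real_inner_self_eq_norm_sq, x.norm, one_pow]

theorem Sp.abs_inner (x y : Sp E) : |inner ℝ (x : E) (y : E)| ≤ 1 := by
  have := abs_real_inner_le_norm (x : E) (y : E)
  rwa [x.norm, y.norm, one_mul] at this

/-- The unit sphere is a suspension. -/
def suspSp (e : Sp E) : Susp (Sp E) E where
  v x := (x : E) - inner ℝ (e : E) (x : E) • (e : E)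
  s x := inner ℝ (e : E) (x : E)
  emb := by
    refine Topology.IsEmbedding.of_comp (g := fun p : E × ℝ => p.1 + p.2 • (e : E))
      (by fun_prop) (by fun_prop) ?_
    have : (fun p : E × ℝ => p.1 + p.2 • (e : E)) ∘ (fun x : Sp E =>
        ((x : E) - inner ℝ (e : E) (x : E) • (e : E), inner ℝ (e : E) (x : E))) =
        (Subtype.val : Sp E → E) := by
      funext x
      simp
    rw [this]
    exact Topology.IsEmbedding.subtypeVal
  abs_s x := e.abs_inner x
  scale x c s' hc hs' h := by
    have e1 := e.inner_self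
    have e2 := x.inner_self
    have e3 : inner ℝ (x : E) (e : E) = inner ℝ (e : E) (x : E) := real_inner_comm _ _
    refine ⟨⟨c • ((x : E) - inner ℝ (e : E) (x : E) • (e : E)) + s' • (e : E), ?_⟩, ?_, ?_⟩
    · rw [mem_sphere_zero_iff_norm, ← sq_eq_sq₀ (norm_nonneg _) zero_le_one,
        ← real_inner_self_eq_norm_sq]
      simp only [inner_add_left, inner_add_right, inner_smul_left, inner_smul_right,
        inner_sub_left, inner_sub_right, e1, e2, e3, RCLike.conj_to_real]
      linear_combination h
    · simp only [inner_add_right, inner_smul_right, inner_sub_right, e1]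
      rw [show c * (inner ℝ (e : E) (x : E) - inner ℝ (e : E) (x : E) * 1) + s' * 1 = s' by ring]
      abel
    · simp only [inner_add_right, inner_smul_right, inner_sub_right, e1]
      ring

/-- The sphere of the hyperplane orthogonal to `e`. -/
abbrev Hyp (e : Sp E) : Type := ↥((Submodule.span ℝ {(e : E)})ᗮ)

theorem mem_hyp {e : Sp E} {x : E} : x ∈ (Submodule.span ℝ {(e : E)})ᗮ ↔
    inner ℝ (e : E) x = 0 := Submodule.mem_orthogonal_singleton_iff_inner_right

/-- The inclusion of the equator. -/
def hypTo (e : Sp E) : C(Sp (Hyp e), (suspSp e).Eqt) where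
  toFun x := ⟨⟨((x : Hyp e) : E), by
    have := x.2
    rw [mem_sphere_zero_iff_norm] at this ⊢
    exact this⟩, mem_hyp.mp (x : Hyp e).2⟩
  continuous_toFun := by fun_prop

/-- Its inverse. -/
def hypFrom (e : Sp E) : C((suspSp e).Eqt, Sp (Hyp e)) where
  toFun x := ⟨⟨((x : Sp E) : E), mem_hyp.mpr x.2⟩, by
    rw [mem_sphere_zero_iff_norm]
    exact (x : Sp E).norm⟩
  continuous_toFun := by fun_prop

/-- The inclusion of the equator in the complement of the poles. -/
def hypIncl (e : Sp E) : C(Sp (Hyp e), ↥((suspSp e).Ap ∩ (suspSp e).Am)) :=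
  (suspSp e).eqIncl.comp (hypTo e)

/-- The retraction. -/
def hypRetr (e : Sp E) : C(↥((suspSp e).Ap ∩ (suspSp e).Am), Sp (Hyp e)) :=
  (hypFrom e).comp (suspSp e).eqRetr

theorem hypRetr_hypIncl (e : Sp E) : (hypRetr e).comp (hypIncl e) = ContinuousMap.id _ := by
  have h := (suspSp e).eqRetr_eqIncl
  have h2 : (hypRetr e).comp (hypIncl e) =
      (hypFrom e).comp (((suspSp e).eqRetr.comp (suspSp e).eqIncl).comp (hypTo e)) := rfl
  rw [h2, h]
  rfl

theorem hypIncl_hypRetr (e : Sp E) : ((hypIncl e).comp (hypRetr e)).Homotopic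
    (ContinuousMap.id ↥((suspSp e).Ap ∩ (suspSp e).Am)) := by
  have h := (suspSp e).eqIncl_eqRetr
  exact h

theorem hyp_equiv (e : Sp E) (F : Type) [TopologicalSpace F] (k : ℕ) (b : Sp (Hyp e)) :
    Nonempty (Red A k F (hypIncl e b) ≃+ Red A k F b) :=
  red_equiv (hypIncl e) b (idm_bijective F (g := hypRetr e)
    (by rw [hypRetr_hypIncl]) (hypIncl_hypRetr e) k)

/-- Existence of an orthogonal unit vector. -/
theorem exists_orth (b : Sp E) (h : 2 ≤ Module.finrank ℝ E) : ∃ e : Sp E,
    inner ℝ (e : E) (b : E) = 0 := by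
  have hfd : FiniteDimensional ℝ E := Module.finite_of_finrank_pos (by omega)
  have hb : (b : E) ≠ 0 := by
    intro h0
    have := b.norm
    rw [h0, norm_zero] at this
    exact zero_ne_one this
  have h1 : 0 < Module.finrank ℝ ((Submodule.span ℝ {(b : E)})ᗮ : Submodule ℝ E) := by
    have h2 := Submodule.finrank_add_finrank_orthogonal (Submodule.span ℝ {(b : E)})
    rw [finrank_span_singleton hb] at h2
    omega
  have : Nontrivial ((Submodule.span ℝ {(b : E)})ᗮ : Submodule ℝ E) :=
    Module.nontrivial_of_finrank_pos h1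
  obtain ⟨v, hv⟩ := exists_ne (0 : ((Submodule.span ℝ {(b : E)})ᗮ : Submodule ℝ E))
  have hv' : ‖(v : E)‖ ≠ 0 := by
    rw [norm_ne_zero_iff]
    exact fun h0 => hv (Subtype.ext h0)
  refine ⟨⟨‖(v : E)‖⁻¹ • (v : E), ?_⟩, ?_⟩
  · rw [mem_sphere_zero_iff_norm, norm_smul, norm_inv, norm_norm, inv_mul_cancel₀ hv']
  · rw [inner_smul_left, Submodule.mem_orthogonal_singleton_iff_inner_left.mp v.2, mul_zero]

end

/-- The reduced cohomology of `F × S(E)`. -/
theorem red_sphere (n : ℕ) : ∀ (E : Type) [NormedAddCommGroup E] [InnerProductSpace ℝ E]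
    (_ : Module.finrank ℝ E = n + 1) (b : Sp E) (F : Type) [TopologicalSpace F] (k : ℕ),
    (k < n → Subsingleton (Red A k F b)) ∧
      (∀ j, k = j + n → Nonempty (Red A k F b ≃+ H j F A)) := by
  induction n with
  | zero =>
    intro E _ _ hE b F _ k
    refine ⟨fun h => absurd h (Nat.not_lt_zero _), ?_⟩
    rintro j rfl
    have hpm : ∀ x : Sp E, x = b ∨ x = -b := by
      intro x
      have hb : (b : E) ≠ 0 := by
        intro h0
        have := b.norm
        rw [h0, norm_zero] at this
        exact zero_ne_one this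
      obtain ⟨c, hc⟩ := (finrank_eq_one_iff_of_nonzero' (b : E) hb).mp (by rw [hE]) (x : E)
      have h1 : |c| = 1 := by
        have := x.norm
        rw [← hc, norm_smul, b.norm, mul_one] at this
        exact this
      rcases (abs_eq zero_le_one).mp h1 with h | h
      · left
        apply Subtype.ext
        rw [← hc, h, one_smul]
      · right
        apply Subtype.ext
        rw [← hc, h, neg_one_smul]
        rfl
    have hfin : Finite (Sp E) := by
      refine Finite.of_surjective (fun c : Bool => if c then b else -b) (fun x => ?_)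
      rcases hpm x with h | h
      · exact ⟨true, by simp [h]⟩
      · exact ⟨false, by simp [h]⟩
    have hne : b ≠ -b := by
      intro h
      have h1 : (b : E) = -(b : E) := congrArg Subtype.val h
      have h2 : (b : E) = 0 := by
        have h3 : (2 : ℝ) • (b : E) = 0 := by
          rw [two_smul]
          nth_rewrite 2 [h1]
          exact add_neg_cancel _
        exact (smul_eq_zero.mp h3).resolve_left two_ne_zero
      have := b.norm
      rw [h2, norm_zero] at this
      exact zero_ne_one this
    exact red_two hne hpm F _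
  | succ n ih =>
    intro E _ _ hE b F _ k
    obtain ⟨e, he⟩ := exists_orth b (by omega)
    have hfd : FiniteDimensional ℝ E := Module.finite_of_finrank_pos (by omega)
    have hpc : PathConnectedSpace (Sp E) := by
      rw [← isPathConnected_iff_pathConnectedSpace]
      refine isPathConnected_sphere ?_ 0 zero_le_one
      rw [← Module.finrank_eq_rank]
      rw [hE]
      norm_cast
      omega
    have hne : Nonempty (Sp E) := ⟨b⟩
    have c1 : ContractibleSpace (suspSp e).Ap := (suspSp e).contractible_Ap
    have c2 : ContractibleSpace (suspSp e).Am := (suspSp e).contractible_Am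
    have hE' : Module.finrank ℝ (Hyp e) = n + 1 := by
      have : Fact (Module.finrank ℝ E = (n + 1) + 1) := ⟨hE⟩
      refine Submodule.finrank_orthogonal_span_singleton ?_
      intro h0
      have := e.norm
      rw [h0, norm_zero] at this
      exact zero_ne_one this
    let b' : Sp (Hyp e) := ⟨⟨(b : E), mem_hyp.mpr he⟩, by
      rw [mem_sphere_zero_iff_norm]
      exact b.norm⟩
    have step : ∀ m, Nonempty (Red A (m + 1) F b ≃+ Red A m F b') := by
      intro m
      obtain ⟨e1⟩ := red_step (A := A) (suspSp e).isOpen_Ap (suspSp e).isOpen_Am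
        (suspSp e).Ap_union_Am (hypIncl e b') F m
      obtain ⟨e2⟩ := hyp_equiv (A := A) e F m b'
      exact ⟨e1.trans e2⟩
    constructor
    · intro hk
      cases k with
      | zero => exact red_zero b
      | succ m =>
        obtain ⟨s⟩ := step m
        have := (ih (Hyp e) hE' b' F m).1 (by omega)
        exact s.toEquiv.subsingleton
    · rintro j rfl
      obtain ⟨s⟩ := step (j + n)
      obtain ⟨t⟩ := (ih (Hyp e) hE' b' F (j + n)).2 j rfl
      exact ⟨s.trans t⟩

end

end Pool.Agent.Lib.MP_89fcdb_gt.H74
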