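import Pool.Agent.Lib.MP_904b2a_gt.H74.SuspMV

/-!
# MP_89fcdb_gt, module PC (helper74): the cohomology of `F × S(E)`

`Red A k F B b` are the classes of degree `k` on `F × B` which vanish on `F × {b}`. For the unit
sphere of a real inner product space of dimension `n + 1` it is `H^(k-n)(F)` for `n ≤ k` and zero
for `k < n`.
-/

open scoped BigOperators
open Set Topology

namespace Pool.Agent.Lib.MP_89fcdb_gt.H74

open Pool.Agent.Lib.MP_904b2a_gt

noncomputable section

variable {A : Type*} [AddCommGroup A]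

/-! ### Relations and isomorphisms -/

theorem addEquiv_of_rel {G G' : Type*} [AddCommGroup G] [AddCommGroup G'] (R : G → G' → Prop)
    (hsub : ∀ a b a' b', R a a' → R b b' → R (a - b) (a' - b'))
    (hl : ∀ a, ∃ a', R a a') (hr : ∀ a', ∃ a, R a a')
    (hl' : ∀ a', R 0 a' → a' = 0) (hr' : ∀ a, R a 0 → a = 0) : Nonempty (G ≃+ G') := by
  choose f hf using hl
  have huniq : ∀ a x y, R a x → R a y → x = y := fun a x y hx hy =>
    sub_eq_zero.mp (hl' _ (by simpa using hsub a a x y hx hy))
  have huniq' : ∀ a b x, R a x → R b x → a = b := fun a b x hx hy =>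
    sub_eq_zero.mp (hr' _ (by simpa using hsub a b x x hx hy))
  have h0 : R 0 0 := by simpa using hsub 0 0 (f 0) (f 0) (hf 0) (hf 0)
  have hneg : ∀ a x, R a x → R (-a) (-x) := fun a x h => by simpa using hsub 0 a 0 x h0 h
  have hadd : ∀ a b, f (a + b) = f a + f b := fun a b =>
    huniq (a + b) _ _ (hf _) (by simpa using hsub a (-b) _ _ (hf a) (hneg _ _ (hf b)))
  refine ⟨AddEquiv.ofBijective (AddMonoidHom.mk' f hadd) ⟨fun a b hab => ?_, fun x => ?_⟩⟩
  · have hab' : f a = f b := hab
    exact huniq' a b (f a) (hf a) (hab' ▸ hf b)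
  · obtain ⟨a, ha⟩ := hr x
    exact ⟨a, huniq a _ _ (hf a) ha⟩

/-- A group with exactly two elements. -/
def Two (G : Type*) [AddCommGroup G] : Prop := ∃ w : G, w ≠ 0 ∧ ∀ y : G, y = 0 ∨ y = w

theorem Two.of_equiv {G G' : Type*} [AddCommGroup G] [AddCommGroup G'] (e : G ≃+ G')
    (h : Two G') : Two G := by
  obtain ⟨w, hw, h⟩ := h
  refine ⟨e.symm w, fun h0 => hw (by simpa using congrArg e h0), fun y => ?_⟩
  rcases h (e y) with h | h
  · left
    simpa using congrArg e.symm h
  · right
    rw [← h, e.symm_apply_apply]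

theorem two_zmod : Two (ZMod 2) := ⟨1, by decide, by decide⟩

/-! ### Slices -/

section Slices

variable {F B : Type} [TopologicalSpace F] [TopologicalSpace B]

/-- The inclusion of `F × {b}`. -/
def slice (F : Type) [TopologicalSpace F] {B : Type} [TopologicalSpace B] (b : B) :
    C(F, F × B) := ⟨fun v => (v, b), by fun_prop⟩

/-- The projection to `F`. -/
def pr (F B : Type) [TopologicalSpace F] [TopologicalSpace B] : C(F × B, F) :=
  ⟨Prod.fst, continuous_fst⟩

/-- The map `id × f`. -/
abbrev idm (F : Type) [TopologicalSpace F] {B B' : Type} [TopologicalSpace B]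
    [TopologicalSpace B'] (f : C(B, B')) : C(F × B, F × B') := (ContinuousMap.id F).prodMap f

theorem pr_slice (b : B) : (pr F B).comp (slice F b) = ContinuousMap.id F := rfl

theorem idm_slice {B' : Type} [TopologicalSpace B'] (f : C(B, B')) (b : B) :
    (idm F f).comp (slice F b) = slice F (f b) := rfl

theorem pr_idm {B' : Type} [TopologicalSpace B'] (f : C(B, B')) :
    (pr F B').comp (idm F f) = pr F B := rfl

theorem slice_pr_homotopic [ContractibleSpace B] (b : B) :
    ((slice F b).comp (pr F B)).Homotopic (ContinuousMap.id (F × B)) := by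
  have h : (ContinuousMap.const B b).Homotopic (ContinuousMap.id B) := by
    obtain ⟨b', hb'⟩ := id_nullhomotopic B
    have h1 : (ContinuousMap.const B b).Homotopic (ContinuousMap.const B b') :=
      ContinuousMap.homotopic_const_iff.mpr (PathConnectedSpace.joined b b')
    exact h1.trans hb'.symm
  obtain ⟨G⟩ := h
  exact ⟨((ContinuousMap.Homotopy.refl (ContinuousMap.id F)).prodMap G).cast rfl rfl⟩

theorem slice_bijective [ContractibleSpace B] (b : B) (k : ℕ) :
    Function.Bijective (H.pb (n := k) (A := A) (slice F b)) :=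
  H.pb_bijective (g := pr F B) (by rw [pr_slice]) (slice_pr_homotopic b)

theorem pb_slice_pr (b : B) {k : ℕ} (c : H k F A) :
    H.pb (slice F b) (H.pb (pr F B) c) = c := by
  rw [H.pb_comp, pr_slice, H.pb_id]

/-- Over a contractible base every class is pulled back from `F`. -/
theorem eq_pb_pr [ContractibleSpace B] (b : B) {k : ℕ} (c : H k (F × B) A) :
    c = H.pb (pr F B) (H.pb (slice F b) c) := by
  apply (slice_bijective (A := A) b k).1
  rw [pb_slice_pr]

variable (A) in
/-- The classes on `F × B` which vanish on `F × {b}`. -/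
def Red (k : ℕ) (F : Type) [TopologicalSpace F] {B : Type} [TopologicalSpace B] (b : B) :
    AddSubgroup (H k (F × B) A) := (H.pb (slice F b)).ker

theorem mem_Red {k : ℕ} {b : B} {c : H k (F × B) A} :
    c ∈ Red A k F b ↔ H.pb (slice F b) c = 0 := Iff.rfl

theorem red_equiv {B' : Type} [TopologicalSpace B'] (f : C(B, B')) (b : B) {k : ℕ}
    (hf : Function.Bijective (H.pb (n := k) (A := A) (idm F f))) :
    Nonempty (Red A k F (f b) ≃+ Red A k F b) := by
  have key : ∀ c, H.pb (slice F b) (H.pb (idm F f) c) = H.pb (slice F (f b)) (c : H k _ A) := by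
    intro c
    rw [H.pb_comp, idm_slice]
  let φ : Red A k F (f b) →+ Red A k F b :=
    ((H.pb (idm F f)).comp (Red A k F (f b)).subtype).codRestrict (Red A k F b)
      (fun c => by
        rw [mem_Red]
        exact (key c).trans c.2)
  refine ⟨AddEquiv.ofBijective φ ⟨fun x y h => ?_, fun y => ?_⟩⟩
  · exact Subtype.ext (hf.1 (congrArg Subtype.val h))
  · obtain ⟨x, hx⟩ := hf.2 y.1
    refine ⟨⟨x, ?_⟩, Subtype.ext hx⟩
    rw [mem_Red, ← key, hx]
    exact y.2

/-- Classes of degree zero are determined by their values at points. -/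
theorem H0_ext {X : Type*} [TopologicalSpace X] {c : H 0 X A}
    (h : ∀ x : X, H.pb (ContinuousMap.const Unit x) c = 0) : c = 0 := by
  obtain ⟨φ, rfl⟩ := H.mk_surjective 0 c
  rw [H.mk_eq_zero]
  have : (φ : Coch 0 X A) = 0 := by
    funext σ
    rw [zero_simplex_eq σ]
    have h2 := h (σ (stdSimplex.vertex 0))
    rw [H.pb_mk, H.mk_eq_zero] at h2
    exact congrFun (show pbC 0 _ φ.1 = 0 from h2) (cs 0 ())
  rw [this]
  exact zero_mem _

theorem red_zero [PathConnectedSpace B] (b : B) : Subsingleton (Red A 0 F b) := by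
  refine ⟨fun x y => ?_⟩
  have key : ∀ c : Red A 0 F b, c = 0 := by
    intro c
    apply Subtype.ext
    apply H0_ext
    rintro ⟨v, x⟩
    have h : (ContinuousMap.const Unit ((v, x) : F × B)).Homotopic
        (ContinuousMap.const Unit (v, b)) :=
      ContinuousMap.homotopic_const_iff.mpr (by
          obtain ⟨p⟩ := PathConnectedSpace.joined x b
          exact ⟨(Path.refl v).prod p⟩)
    rw [H.pb_eq_of_homotopic h]
    have h2 : (ContinuousMap.const Unit ((v, b) : F × B)) =
        (slice F b).comp (ContinuousMap.const Unit v) := rfl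
    rw [h2, ← H.pb_comp, mem_Red.mp c.2, map_zero]
  rw [key x, key y]

end Slices

/-! ### Mayer–Vietoris for `F × X` -/

section MVF

open H83 (MVSq)

/-- The suspension step for an open cover of the base by two contractible sets. -/
theorem red_step {X : Type} [TopologicalSpace X] {U W : Set X} (hU : IsOpen U) (hW : IsOpen W)
    (hUW : U ∪ W = univ) [ContractibleSpace U] [ContractibleSpace W] (b : ↥(U ∩ W))
    (F : Type) [TopologicalSpace F] (k : ℕ) :
    Nonempty (Red A (k + 1) F (b : X) ≃+ Red A k F b) := by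
  have S := (sq_of_cover hU hW hUW).prod F
  set jU : C(F × ↥(U ∩ W), F × U) := idm F (iL U W) with hjU
  set jW : C(F × ↥(U ∩ W), F × W) := idm F (iR U W) with hjW
  set iU : C(F × U, F × X) := idm F (incl U) with hiU
  set iW : C(F × W, F × X) := idm F (incl W) with hiW
  have cU : iU.comp (slice F (⟨b.1, b.2.1⟩ : U)) = slice F (b : X) := rfl
  have cW : iW.comp (slice F (⟨b.1, b.2.2⟩ : W)) = slice F (b : X) := rfl
  have dU : jU.comp (slice F b) = slice F (⟨b.1, b.2.1⟩ : U) := rfl
  have dW : jW.comp (slice F b) = slice F (⟨b.1, b.2.2⟩ : W) := rfl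
  refine addEquiv_of_rel (fun c a => H83.MV jU jW iU iW k (c : H (k + 1) (F × X) A)
    (a : H k (F × ↥(U ∩ W)) A)) ?_ ?_ ?_ ?_ ?_
  · intro a b a' b' h h'
    exact h.sub h'
  · rintro ⟨c, hc⟩
    rw [mem_Red] at hc
    obtain ⟨a, ha⟩ := H83.MV.of_restrict (jU := jU) (jW := jW) (c := c) S.comm
      ((slice_bijective (A := A) (⟨b.1, b.2.1⟩ : U) (k + 1)).1 (by
        rw [H.pb_comp, cU, hc, map_zero]))
      ((slice_bijective (A := A) (⟨b.1, b.2.2⟩ : W) (k + 1)).1 (by
        rw [H.pb_comp, cW, hc, map_zero]))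
    have h2 := ha.sub (H83.MV.of_sub (jU := jU) (jW := jW) (iU := iU) (iW := iW)
      (H.pb (pr F U) (H.pb (slice F b) a)) 0)
    rw [sub_zero, map_zero, sub_zero] at h2
    refine ⟨⟨a - H.pb jU (H.pb (pr F U) (H.pb (slice F b) a)), ?_⟩, h2⟩
    rw [mem_Red, map_sub, H.pb_comp, dU, pb_slice_pr, sub_self]
  · rintro ⟨a, ha⟩
    obtain ⟨c, hc⟩ := H83.MV.exists S a
    refine ⟨⟨c, ?_⟩, hc⟩
    rw [mem_Red, ← cU, ← H.pb_comp, hc.restrict.1, map_zero]
  · rintro ⟨a, ha⟩ h
    rw [mem_Red] at ha
    obtain ⟨u, w, huw⟩ := H83.MV.exact_I S.comm h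
    apply Subtype.ext
    change a = 0
    simp only at huw
    have e1 := eq_pb_pr (⟨b.1, b.2.1⟩ : U) u
    have e2 := eq_pb_pr (⟨b.1, b.2.2⟩ : W) w
    have e3 : H.pb (slice F (⟨b.1, b.2.1⟩ : U)) u = H.pb (slice F (⟨b.1, b.2.2⟩ : W)) w := by
      rw [huw, map_sub, H.pb_comp, H.pb_comp, dU, dW, sub_eq_zero] at ha
      exact ha
    rw [huw, e1, e2, e3, H.pb_comp jU, H.pb_comp jW]
    exact sub_self (H.pb (pr F ↥(U ∩ W)) (H.pb (slice F (⟨b.1, b.2.2⟩ : W)) w))
  · rintro ⟨c, hc⟩ h
    exact Subtype.ext (H83.MV.eq_zero S h)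

/-- Cohomology of the empty space. -/
theorem H_of_isEmpty {X : Type*} [TopologicalSpace X] [IsEmpty X] (k : ℕ) (c : H k X A) :
    c = 0 := by
  obtain ⟨φ, rfl⟩ := H.mk_surjective k c
  have : φ = 0 := by
    apply Subtype.ext
    funext σ
    exact isEmptyElim (σ (stdSimplex.vertex 0))
  rw [this, map_zero]

/-- The case of a base with two isolated points. -/
theorem red_two {X : Type} [TopologicalSpace X] [DiscreteTopology X] {b b' : X} (hb : b ≠ b')
    (h : ∀ x : X, x = b ∨ x = b') (F : Type) [TopologicalSpace F] (k : ℕ) :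
    Nonempty (Red A k F b ≃+ H k F A) := by
  have hUW : ({b} : Set X) ∪ {b'} = univ := by
    ext x
    simp only [mem_union, mem_singleton_iff, mem_univ, iff_true]
    exact h x
  have S := (sq_of_cover (isOpen_discrete ({b} : Set X)) (isOpen_discrete {b'}) hUW).prod F
  set jU : C(F × ↥({b} ∩ {b'} : Set X), F × ({b} : Set X)) := idm F (iL {b} {b'}) with hjU
  set jW : C(F × ↥({b} ∩ {b'} : Set X), F × ({b'} : Set X)) := idm F (iR {b} {b'}) with hjW
  set iU : C(F × ({b} : Set X), F × X) := idm F (incl {b}) with hiU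
  set iW : C(F × ({b'} : Set X), F × X) := idm F (incl {b'}) with hiW
  have hemp : IsEmpty ↥({b} ∩ {b'} : Set X) := by
    refine ⟨fun x => ?_⟩
    have h1 : x.1 = b := x.2.1
    have h2 : x.1 = b' := x.2.2
    exact hb (h1.symm.trans h2)
  have cU : iU.comp (slice F (⟨b, rfl⟩ : ({b} : Set X))) = slice F b := rfl
  have cW : iW.comp (slice F (⟨b', rfl⟩ : ({b'} : Set X))) = slice F b' := rfl
  have c1 : ContractibleSpace ({b} : Set X) := by
    have : Unique ({b} : Set X) := uniqueSingleton b
    infer_instance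
  have c2 : ContractibleSpace ({b'} : Set X) := by
    have : Unique ({b'} : Set X) := uniqueSingleton b'
    infer_instance
  let φ : Red A k F b →+ H k F A := (H.pb (slice F b')).comp (Red A k F b).subtype
  refine ⟨AddEquiv.ofBijective φ ⟨?_, ?_⟩⟩
  · rw [injective_iff_map_eq_zero]
    rintro ⟨c, hc⟩ h0
    rw [mem_Red] at hc
    have h0' : H.pb (slice F b') c = 0 := h0
    apply Subtype.ext
    change c = 0
    have r1 : H.pb iU c = 0 := (slice_bijective (A := A) (⟨b, rfl⟩ : ({b} : Set X)) k).1 (by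
      rw [H.pb_comp, cU, hc, map_zero])
    have r2 : H.pb iW c = 0 := (slice_bijective (A := A) (⟨b', rfl⟩ : ({b'} : Set X)) k).1 (by
      rw [H.pb_comp, cW, h0', map_zero])
    cases k with
    | zero => exact H83.MV.eq_zero_of_restrict S r1 r2
    | succ k =>
      obtain ⟨a, ha⟩ := H83.MV.of_restrict (jU := jU) (jW := jW) S.comm r1 r2
      rw [H_of_isEmpty k a] at ha
      exact H83.MV.eq_zero S ha
  · intro y
    obtain ⟨c, h1, h2⟩ := H83.MV.exact_UW S (u := 0) (w := H.pb (pr F _) y)
      ((H_of_isEmpty k _).trans (H_of_isEmpty k _).symm)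
    refine ⟨⟨c, ?_⟩, ?_⟩
    · rw [mem_Red, ← cU, ← H.pb_comp, h1, map_zero]
    · change H.pb (slice F b') c = y
      rw [← cW, ← H.pb_comp, h2, pb_slice_pr]

end MVF

end

end Pool.Agent.Lib.MP_89fcdb_gt.H74
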